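import Pool.Agent.Helper93_LCH.Main
import Pool.Agent.Helper90_LCH.AVF
import Pool.Agent.Helper81_LCH.AVL
import Pool.Agent.Helper62_LE.AVU
import Pool.Agent.Helper65_LCH.CPG
import Pool.Agent.Helper77_LCH.ERG
import Pool.Agent.Helper56_LCH.FVG
import Pool.Agent.Helper60_LCH.FVW
import Pool.Agent.Helper15_LCH.LIM
import Pool.Agent.Helper69_LCH.MEW
import Pool.Agent.Helper35_LCH.Null
import Pool.Agent.Helper60_LCH.PTI
import Pool.Agent.Helper3_LCH.SML
import Pool.Agent.Helper45_LCH.WTA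
import Pool.Agent.Helper81_LCH.WTC
import Pool.Agent.Helper39_LCH.WTE
import Pool.Agent.Helper39_LCH.WTL
import Pool.Agent.Helper25_LCH.WTQ
import Pool.Agent.Helper76_LCH.WTS
import Pool.Agent.Helper69_LCH.CN2

/-!
# The localized region is the complement of the zeros of the Lyapunov exponent: assembly
-/

set_option autoImplicit false

open MeasureTheory ProbabilityTheory Filter

open scoped ENNReal InnerProductSpace Topology

noncomputable section

namespace Pool.Agent.LE.CH.H93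

open Pool.Agent.Anderson Pool.Agent.Loc Pool.Agent.Helper54.Bal Pool.Agent.Mob

universe u

theorem wtaT : WtaStmt := H45.wta

theorem wtlT : WtlStmt := H39.wtl

theorem wteT : WteStmt := H39.wte

theorem fvgT : FvgStmt := H56.fvg H60.fvw

theorem wtqT : WtqStmt := H25.wtq H60.fvw fvgT H60.pti

theorem cpgT : CpgStmt := Pool.Agent.LE.H65C.cpg wtaT wtlT H81.wtc wtqT

theorem wtsT : WtsStmt := H76.wts wtaT wteT wtlT

theorem limT : LimStmt := H15.lim wtsT H81.wtc wtaT

theorem avlT : AvlStmt := H81.avl H90.avf fvgT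

theorem smlT : SmlStmt := H3.sml H62.avu H69.mew

theorem nulT : NulStmt := H35.nul wteT

theorem cn2T : Cn2Stmt.{u} := H69.cn2.{u} limT wtlT H69.mew avlT H77.erg

/-- the localized region is the complement of the zeros of the Lyapunov exponent, up to a null
set -/
theorem mainT (d : ℕ) (hd : 1 ≤ d) (σ : ℝ) (hσ : σ ≠ 0) :
    ∃ γ : ℝ → ℝ,
      (∀ E : ℝ, 0 ≤ γ E ∧ ∀ ε : ℝ, 0 < ε →
        Tendsto (H93.pr d σ E (γ E + ε)) atTop (𝓝 0) ∧
        Tendsto (H93.pr d σ E (γ E - ε)) atTop (𝓝 1)) ∧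
      Continuous γ ∧
      (3 ≤ d → ∃ K : ℝ, ∀ E : ℝ, K < |E| → 0 < γ E) ∧
      ∀ (Ω : Type u) [MeasurableSpace Ω] (P : Measure Ω) [IsProbabilityMeasure P]
        (ξ : Site d → Ω → ℝ), (∀ y, Measurable (ξ y)) →
        (∀ y, P.map (ξ y) = gaussianReal 0 1) → iIndepFun ξ P →
        ∀ᵐ ω ∂P, Exact (fun x => σ * ξ x ω) γ ∧
          (∀ I : Set ℝ, IsOpen I →
            (LocIn (fun x => σ * ξ x ω) I ↔ volume {E | E ∈ I ∧ γ E = 0} = 0)) ∧
          ∀ I : Set ℝ, IsOpen I →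
            (∀ E ∈ I, ∀ φ : L2 d, IsEigen (fun x => σ * ξ x ω) E φ → φ = 0) →
              ∀ E ∈ I, γ E = 0 :=
  main.{u} cpgT smlT nulT cn2T d hd σ hσ

end Pool.Agent.LE.CH.H93
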