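import Pool.Agent.LE.StmtsH2
import Pool.Agent.Helper93_LSF.Final
import Pool.Agent.Helper93_LEC.AllC

/-!
# The localized region is the complement of the zeros of the Lyapunov exponent
-/

set_option autoImplicit false

open MeasureTheory ProbabilityTheory Filter

open scoped ENNReal InnerProductSpace Topology

noncomputable section

namespace Pool.Agent.LE.CH.H93

open Pool.Agent.Anderson Pool.Agent.Loc Pool.Agent.Helper54.Bal Pool.Agent.Mob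

universe u

variable {d : ℕ}

/-- exponential localization in the set `I` of energies -/
def LocIn (V : Site d → ℝ) (I : Set ℝ) : Prop :=
  Cpl V I ∧ ∀ E ∈ I, ∀ φ : L2 d, IsEigen V E φ →
    ∃ m B : ℝ, 0 < m ∧ ∀ x, ‖φ x‖ ≤ B * Real.exp (-m * sd 0 x)

theorem locIn_mono {V : Site d → ℝ} {I I' : Set ℝ} (h : LocIn V I) (hI : I' ⊆ I) : LocIn V I' :=
  ⟨fun a r har => h.1 a r (har.trans hI), fun E hE => h.2 E (hI hE)⟩

/-- the exact rate of decay -/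
def Exact (V : Site d → ℝ) (γ : ℝ → ℝ) : Prop :=
  ∀ (E : ℝ) (ψ : Site d → ℂ), (∃ x, ψ x ≠ 0) →
    (∃ (B : ℝ) (k : ℕ), ∀ x, ‖ψ x‖ ≤ B * (1 + (sd 0 x : ℝ)) ^ k) →
    (∀ x, lap ψ x + (V x : ℂ) * ψ x = (E : ℂ) * ψ x) →
    (∀ m : ℝ, m < γ E → ∃ B : ℝ, ∀ x, ‖ψ x‖ ≤ B * Real.exp (-m * sd 0 x)) ∧
    ∀ m B : ℝ, γ E < m → ¬ ∀ x, ‖ψ x‖ ≤ B * Real.exp (-m * sd 0 x)

theorem l2_poly (φ : L2 d) :
    ∃ (B : ℝ) (k : ℕ), ∀ x, ‖φ x‖ ≤ B * (1 + (sd 0 x : ℝ)) ^ k :=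
  ⟨‖φ‖, 0, fun x => by
    rw [pow_zero, mul_one]
    exact lp.norm_apply_le_norm (by norm_num) φ x⟩

theorem l2_ne {φ : L2 d} (h : φ ≠ 0) : ∃ x, φ x ≠ 0 := by
  by_contra hcon
  push Not at hcon
  exact h (lp.ext (funext hcon))

/-- each point of an open set has a rational interval around it, with room -/
theorem rat_nhd {I : Set ℝ} (hI : IsOpen I) {E : ℝ} (hE : E ∈ I) :
    ∃ a r : ℚ, 0 < r ∧ |E - a| < r / 2 ∧ Set.Icc ((a : ℝ) - r) (a + r) ⊆ I := by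
  obtain ⟨ε, hε, hb⟩ := Metric.isOpen_iff.1 hI E hE
  obtain ⟨r, hr0, hr1⟩ := exists_rat_btwn (show (0 : ℝ) < ε / 2 by linarith)
  have hr0' : (0 : ℝ) < r := by exact_mod_cast hr0
  obtain ⟨a, ha0, ha1⟩ := exists_rat_btwn (show E - r / 2 < E + r / 2 by linarith)
  have hab : |E - a| < r / 2 := by
    rw [abs_lt]
    constructor <;> linarith
  refine ⟨a, r, by exact_mod_cast hr0', hab, fun F hF => hb ?_⟩
  rw [Metric.mem_ball, Real.dist_eq, abs_lt]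
  rw [abs_lt] at hab
  constructor <;> linarith [hF.1, hF.2, hab.1, hab.2]

/-- the deterministic part: localization -/
theorem loc_of (cpg : CpgStmt) (nul : NulStmt) {V : Site d → ℝ} {γ : ℝ → ℝ} (h0 : ∀ E, 0 ≤ γ E)
    (hO : IsOpen {E | 0 < γ E}) (hex : Exact V γ) (hcpl : Cpl V {E | 0 < γ E}) {U : ℕ → Set ℝ}
    {I : Set ℝ} (hU : ∀ k, IsOpen (U k)) (hsml : Sml V U)
    (hZ : ∀ k, {E | E ∈ I ∧ γ E = 0} ⊆ U k) : LocIn V I := by
  refine ⟨cpg d V U _ I hO hU hsml (fun k E hE => ?_) hcpl, fun E hE φ hφ => ?_⟩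
  · rcases (h0 E).lt_or_eq with h | h
    · exact Or.inl h
    · exact Or.inr (hZ k ⟨hE, h.symm⟩)
  · by_cases hφ0 : φ = 0
    · refine ⟨1, 0, one_pos, fun x => ?_⟩
      rw [hφ0]
      simp
    · rcases (h0 E).lt_or_eq with h | h
      · obtain ⟨B, hB⟩ := (hex E φ (l2_ne hφ0) (l2_poly φ) hφ).1 (γ E / 2) (by linarith)
        exact ⟨γ E / 2, B, by linarith, hB⟩
      · exact absurd (nul d V U hU hsml E (fun k => hZ k ⟨hE, h.symm⟩) φ hφ) hφ0

theorem main (cpg : CpgStmt) (sml : SmlStmt) (nul : NulStmt) (cn2 : Cn2Stmt.{u}) (d : ℕ)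
    (hd : 1 ≤ d) (σ : ℝ) (hσ : σ ≠ 0) :
    ∃ γ : ℝ → ℝ,
      (∀ E : ℝ, 0 ≤ γ E ∧ ∀ ε : ℝ, 0 < ε →
        Tendsto (H93.pr d σ E (γ E + ε)) atTop (𝓝 0) ∧
        Tendsto (H93.pr d σ E (γ E - ε)) atTop (𝓝 1)) ∧
      Continuous γ ∧
      (3 ≤ d → ∃ K : ℝ, ∀ E : ℝ, K < |E| → 0 < γ E) ∧
      ∀ (Ω : Type u) [MeasurableSpace Ω] (P : Measure Ω) [IsProbabilityMeasure P]
        (ξ : Site d → Ω → ℝ), (∀ y, Measurable (ξ y)) →
        (∀ y, P.map (ξ y) = gaussianReal 0 1) → iIndepFun ξ P →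
        ∀ᵐ ω ∂P, Exact (fun x => σ * ξ x ω) γ ∧
          (∀ I : Set ℝ, IsOpen I →
            (LocIn (fun x => σ * ξ x ω) I ↔ volume {E | E ∈ I ∧ γ E = 0} = 0)) ∧
          ∀ I : Set ℝ, IsOpen I →
            (∀ E ∈ I, ∀ φ : L2 d, IsEigen (fun x => σ * ξ x ω) E φ → φ = 0) →
              ∀ E ∈ I, γ E = 0 := by
  obtain ⟨γ', h0', -, -, h3'⟩ := H42J.mainJ.{u} H96.mainGT H96.smpT H15.smn H96.algT d hd
  obtain ⟨γ, h0, -, hK, h4⟩ := H96.mainRT.{u} d hd σ hσ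
  have hL' : ∀ σ : ℝ, σ ≠ 0 → ∀ E, LyaAt d σ E (γ' σ E) := fun σ hσ E =>
    H96.lyaAt_of_pr (h0' σ hσ E).1 (h0' σ hσ E).2
  have hγ : γ' σ = γ := funext fun E =>
    H93F.lya_unique (hL' σ hσ E) (H96.lyaAt_of_pr (h0 E).1 (h0 E).2)
  have hcont : Continuous γ := by
    have h1 := H93C.conT d γ' hd hL'
    rw [← hγ]
    refine continuous_iff_continuousAt.2 fun E => ?_
    exact (h1 (σ, E) hσ).comp (f := fun E : ℝ => (σ, E))
      (continuous_const.prodMk continuous_id).continuousAt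
  have hO : IsOpen {E | 0 < γ E} := isOpen_lt continuous_const hcont
  have hZc : IsClosed {E | γ E = 0} := isClosed_eq hcont continuous_const
  have hγ0 : ∀ E, 0 ≤ γ E := fun E => (h0 E).1
  refine ⟨γ, h0, hcont, hK, ?_⟩
  intro Ω _ P _ ξ hm hlaw hind
  -- the maximal open set
  set Z : Set ℝ := {E | γ E = 0} with hZdef
  set J : ℚ × ℚ → Set ℝ := fun p => Set.Ioo (p.1 : ℝ) p.2 with hJ
  set Im : Set ℝ := ⋃ p : ℚ × ℚ, ⋃ _ : volume (Z ∩ J p) = 0, J p with hIm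
  have hZm : volume {E | E ∈ Im ∧ γ E = 0} = 0 := by
    refine measure_mono_null (t := ⋃ p : ℚ × ℚ, ⋃ _ : volume (Z ∩ J p) = 0, Z ∩ J p) ?_ ?_
    · rintro E ⟨hE, hE0⟩
      rw [hIm] at hE
      simp only [Set.mem_iUnion] at hE ⊢
      obtain ⟨p, hp, hEp⟩ := hE
      exact ⟨p, hp, hE0, hEp⟩
    · rw [measure_iUnion_null_iff]
      intro p
      by_cases hp : volume (Z ∩ J p) = 0
      · simp only [hp, Set.iUnion_true]
      · simp [hp]
  obtain ⟨U, hU, hUs⟩ := sml d σ _ hσ hZm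
  have hW := Pool.Agent.Mob.H42.measurable_W hm σ
  have hlawW := Pool.Agent.Mob.H42.map_eq_PP hm hlaw hind σ
  have hUs' := Pool.Agent.Mob.H42.ae_transfer hm hlaw hind σ hUs
  -- completeness
  obtain ⟨-, -, k3⟩ := h3' σ hσ
  obtain ⟨-, k5, -⟩ := k3 Ω P ξ hm hlaw hind
  rw [hγ] at k5
  -- the converse
  have hcn : ∀ᵐ ω ∂P, ∀ a r : ℚ, 0 < r →
      (0 < volume (Z ∩ Set.Icc ((a : ℝ) - r / 2) (a + r / 2)) →
        ¬ (CplJ (fun x => σ * ξ x ω) a r ∧ ∀ E ∈ Z ∩ Set.Icc ((a : ℝ) - r / 2) (a + r / 2),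
          ∀ φ : L2 d, IsEigen (fun x => σ * ξ x ω) E φ → φ = 0)) ∧
        ¬ (CplJ (fun x => σ * ξ x ω) a r ∧ ∀ E ∈ Set.Icc ((a : ℝ) - r / 2) (a + r / 2),
          ∀ φ : L2 d, IsEigen (fun x => σ * ξ x ω) E φ → φ = 0) := by
    rw [ae_all_iff]
    intro a
    rw [ae_all_iff]
    intro r
    rw [eventually_imp_distrib_left]
    intro hr
    have hr' : (0 : ℝ) < r := by exact_mod_cast hr
    rw [eventually_and]
    refine ⟨?_, ?_⟩
    · rw [eventually_imp_distrib_left]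
      intro hv
      exact cn2 d σ a r _ hd hσ (hZc.inter isClosed_Icc) hr' Set.inter_subset_right hv Ω P
        (fun ω y => σ * ξ y ω) hW hlawW
    · refine cn2 d σ a r _ hd hσ isClosed_Icc hr' subset_rfl ?_ Ω P
        (fun ω y => σ * ξ y ω) hW hlawW
      rw [Real.volume_Icc, ENNReal.ofReal_pos]
      linarith
  filter_upwards [hUs', k5, hcn, h4 Ω P ξ hm hlaw hind] with ω hω1 hω2 hω3 hω4
  have hex : Exact (fun x => σ * ξ x ω) γ := fun E ψ hne hpoly hψ => hω4 E ψ hψ hpoly hne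
  have hcpl : Cpl (fun x => σ * ξ x ω) {E | 0 < γ E} := by
    intro a r har u w hw hort
    exact hω2 a r har u w hw hort
  refine ⟨hex, fun I hI => ⟨fun hloc => ?_, fun hv => ?_⟩, fun I hI hno E hE => ?_⟩
  · by_contra hv
    -- a rational interval
    have hcov : {E | E ∈ I ∧ γ E = 0} ⊆ ⋃ p : ℚ × ℚ, ⋃ _ : 0 < p.2 ∧
        Set.Icc ((p.1 : ℝ) - p.2) (p.1 + p.2) ⊆ I,
        Z ∩ Set.Icc ((p.1 : ℝ) - p.2 / 2) (p.1 + p.2 / 2) := by
      rintro E ⟨hE, hE0⟩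
      obtain ⟨a, r, hr, hEa, hI'⟩ := rat_nhd hI hE
      simp only [Set.mem_iUnion]
      refine ⟨(a, r), ⟨hr, hI'⟩, hE0, ?_⟩
      rw [abs_lt] at hEa
      constructor <;> linarith [hEa.1, hEa.2]
    obtain ⟨a, r, hr, hI', hpos⟩ : ∃ a r : ℚ, 0 < r ∧ Set.Icc ((a : ℝ) - r) (a + r) ⊆ I ∧
        0 < volume (Z ∩ Set.Icc ((a : ℝ) - r / 2) (a + r / 2)) := by
      by_contra hcon
      push Not at hcon
      refine hv (measure_mono_null hcov ?_)
      rw [measure_iUnion_null_iff]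
      rintro ⟨a, r⟩
      by_cases hp : 0 < r ∧ Set.Icc ((a : ℝ) - r) (a + r) ⊆ I
      · have := hcon a r hp.1 hp.2
        simp only [hp, and_self, Set.iUnion_true]
        exact le_antisymm this zero_le
      · simp [hp]
    refine (hω3 a r hr).1 hpos ⟨hloc.1 a r hI', fun E hE φ hφ => ?_⟩
    by_contra hφ0
    have hr' : (0 : ℝ) < r := by exact_mod_cast hr
    have hEI : E ∈ I := hI' ⟨by linarith [hE.2.1], by linarith [hE.2.2]⟩
    obtain ⟨m, B, hm0, hB⟩ := hloc.2 E hEI φ hφ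
    have hE0 : γ E = 0 := hE.1
    exact (hex E φ (l2_ne hφ0) (l2_poly φ) hφ).2 m B (by rw [hE0]; exact hm0) hB
  · have hsub : I ⊆ Im := by
      intro E hE
      obtain ⟨a, r, hr, hEa, hI'⟩ := rat_nhd hI hE
      rw [abs_lt] at hEa
      have hr' : (0 : ℝ) < r := by exact_mod_cast hr
      rw [hIm]
      simp only [Set.mem_iUnion]
      refine ⟨(a - r / 2, a + r / 2), ?_, ?_⟩
      · refine measure_mono_null ?_ hv
        rintro F ⟨hF0, hF⟩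
        refine ⟨hI' ?_, hF0⟩
        have h1 := hF.1
        have h2 := hF.2
        push_cast at h1 h2
        exact ⟨by linarith, by linarith⟩
      · rw [hJ]
        constructor
        · push_cast; linarith [hEa.1, hEa.2]
        · push_cast; linarith [hEa.1, hEa.2]
    exact locIn_mono (loc_of cpg nul hγ0 hO hex hcpl (fun k => (hU k).1) hω1
      (fun k => (hU k).2)) hsub
  · by_contra hE0
    have hEpos : 0 < γ E := lt_of_le_of_ne (hγ0 E) (Ne.symm hE0)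
    obtain ⟨a, r, hr, hEa, hI'⟩ := rat_nhd (hI.inter hO) (E := E) ⟨hE, hEpos⟩
    have hr' : (0 : ℝ) < r := by exact_mod_cast hr
    refine (hω3 a r hr).2 ⟨hcpl a r (fun F hF => (hI' hF).2), fun F hF φ hφ => ?_⟩
    exact hno F (hI' ⟨by linarith [hF.1], by linarith [hF.2]⟩).1 φ hφ

end Pool.Agent.LE.CH.H93
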